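import Pool.Agent.V5helper19.ER.Stm2

/-!
# Project ER: the structure of the large entries
-/

set_option autoImplicit false
open Finset

namespace V5helper37.ER

open V5helper19.ER

lemma r1 {c A s : ℝ} (hc1 : 1 ≤ c) (hc4 : c ≤ 4) (hA0 : 0 ≤ A) (h : A ≤ c + s / 9) (hs0 : 0 < s)
    (hs1 : s ≤ 1 / 100) : A ^ 2 ≤ c ^ 2 + s := by
  have h1 : A ^ 2 ≤ (c + s / 9) ^ 2 := pow_le_pow_left₀ hA0 h 2
  have h2 : c * s ≤ 4 * s := mul_le_mul_of_nonneg_right hc4 hs0.le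
  have h3 : s * s ≤ 1 / 100 * s := mul_le_mul_of_nonneg_right hs1 hs0.le
  have h4 : (c + s / 9) ^ 2 = c ^ 2 + 2 / 9 * (c * s) + 1 / 81 * (s * s) := by ring
  linarith

lemma r2 {c A s : ℝ} (hc1 : 1 ≤ c) (hA0 : 0 ≤ A) (h : c ^ 2 - s ≤ A ^ 2) (hs0 : 0 < s)
    (hs1 : s ≤ 1 / 100) : c - s ≤ A := by
  by_contra hcon
  push_neg at hcon
  have h4 : A ^ 2 < (c - s) ^ 2 := pow_lt_pow_left₀ hcon hA0 (by norm_num)
  have h5 : (c - s) ^ 2 = c ^ 2 - 2 * (c * s) + s * s := by ring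
  have h2 : 1 * s ≤ c * s := mul_le_mul_of_nonneg_right hc1 hs0.le
  have h3 : s * s ≤ 1 / 100 * s := mul_le_mul_of_nonneg_right hs1 hs0.le
  linarith

lemma r3 {P p₁ p₂ s S : ℝ} (h3 : P ^ 2 - S ≤ p₁ * p₂ * (2 + s) + 2 * s) (hS : S ≤ p₁ * P)
    (hp : p₂ ≤ P) (hp1 : 0 < p₁) (hp2 : 0 < p₂) (hs0 : 0 < s) (hs1 : s ≤ 1 / 100)
    (hP : 95 / 100 ≤ P) : 1 / 8 ≤ p₁ := by
  by_contra hcon
  push_neg at hcon
  have h4 : p₁ * p₂ * (2 + s) ≤ p₁ * P * 3 := by
    have h5 : p₁ * p₂ ≤ p₁ * P := mul_le_mul_of_nonneg_left hp hp1.le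
    exact mul_le_mul h5 (by linarith) (by linarith) (mul_nonneg hp1.le (by linarith))
  have h6 : p₁ * P ≤ 1 / 8 * P := mul_le_mul_of_nonneg_right hcon.le (by linarith)
  have h7 : P ^ 2 ≤ 1 / 2 * P + 2 * s := by linarith
  have h8 : 95 / 100 * P ≤ P ^ 2 := by
    rw [sq]; exact mul_le_mul_of_nonneg_right hP (by linarith)
  linarith

lemma r4 {P Q R S : ℝ} {p₁ : ℝ} (h : R ≤ Q ^ 2) (hP : P = p₁ + Q) (hS : S = p₁ ^ 2 + R) :
    2 * p₁ * (P - p₁) ≤ P ^ 2 - S := by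
  have : P ^ 2 - S - 2 * p₁ * (P - p₁) = Q ^ 2 - R := by
    rw [hP, hS]; ring
  linarith

lemma r5 {P p₁ p₂ s : ℝ} (h3 : 2 * p₁ * (P - p₁) ≤ p₁ * p₂ * (2 + s) + 2 * s)
    (hp12 : p₁ * p₂ ≤ 1) (hp : 1 / 8 ≤ p₁) (hs0 : 0 < s) : P - p₁ - p₂ ≤ 12 * s := by
  have h4 : p₁ * p₂ * s ≤ 1 * s := mul_le_mul_of_nonneg_right hp12 hs0.le
  by_contra hcon
  push_neg at hcon
  have h5 : p₁ * (12 * s) < p₁ * (P - p₁ - p₂) := mul_lt_mul_of_pos_left hcon (by linarith)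
  have h6 : 1 / 8 * s ≤ p₁ * s := mul_le_mul_of_nonneg_right hp hs0.le
  linarith

lemma core {n : ℕ} {K η s c : ℝ} {a m : Fin n → Fin n → ℝ} (hD : Dat K n c a m) (hs0 : 0 < s)
    (hs1 : s ≤ 1 / 100) (hη : 0 < η) (hη1 : η ≤ 1 / 1000) (hn : 2 ≤ n)
    (h1 : ((LL η a).card : ℝ) ^ 2 / ((n : ℝ) - 1) ≤ s / 9)
    (h2 : K * ((LL η a).card : ℝ) ^ 4 / n ≤ s) (hK : 0 ≤ K)
    (H : c ^ 2 ≤ ∑ e ∈ LL η a, a e.1 e.2 ^ 2 +
      ∑ e ∈ LL η a, ∑ e' ∈ (LL η a).filter (fun e' => e'.2 = e.2),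
        m e.1 e'.1 * (a e.1 e.2 * a e'.1 e'.2) + s) :
    ∃ l i₁ i₂ : Fin n, i₁ ≠ i₂ ∧ 1 - 17 * s ≤ a i₁ l + a i₂ l ∧
      (a i₂ l ≤ 1 / 1000 ∨ 1 - 16000 * s ≤ m i₁ i₂) := by
  set L := LL η a with hL
  have hLmem : ∀ e : Fin n × Fin n, e ∈ L ↔ η < a e.1 e.2 := by
    intro e; simp [hL, LL]
  have hLpos : ∀ e ∈ L, 0 < a e.1 e.2 := fun e he => hη.trans ((hLmem e).mp he)
  let Th : (Fin n × Fin n) → (Fin n × Fin n) → ℝ := fun e e' =>
    (if e = e' then 1 else 0) + (if e'.2 = e.2 then m e.1 e'.1 else 0)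
  have hTh1 : ∀ e e', Th e e' ≤ 1 := by
    intro e e'
    simp only [Th]
    by_cases h : e = e'
    · subst h
      simp [hD.md]
    · rw [if_neg h, zero_add]
      split_ifs
      · exact hD.m1 _ _
      · norm_num
  have hTh2 : ∀ e e' : Fin n × Fin n, e'.2 ≠ e.2 → Th e e' = 0 := by
    intro e e' h
    simp only [Th]
    rw [if_neg h, if_neg, add_zero]
    rintro rfl
    exact h rfl
  let F : (Fin n × Fin n) → (Fin n × Fin n) → ℝ := fun e e' =>
    a e.1 e.2 * a e'.1 e'.2 * (1 - Th e e')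
  have hF0 : ∀ e e', 0 ≤ F e e' := by
    intro e e'
    have := hTh1 e e'
    exact mul_nonneg (mul_nonneg (hD.a0 _ _) (hD.a0 _ _)) (by linarith)
  set A : ℝ := ∑ e ∈ L, a e.1 e.2 with hA
  have hAsq : A ^ 2 = ∑ e ∈ L, ∑ e' ∈ L, a e.1 e.2 * a e'.1 e'.2 := by
    rw [sq, hA, Finset.sum_mul_sum]
  have hsum : ∑ e ∈ L, ∑ e' ∈ L, a e.1 e.2 * a e'.1 e'.2 * Th e e' =
      ∑ e ∈ L, a e.1 e.2 ^ 2 + ∑ e ∈ L, ∑ e' ∈ L.filter (fun e' => e'.2 = e.2),
        m e.1 e'.1 * (a e.1 e.2 * a e'.1 e'.2) := by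
    rw [← Finset.sum_add_distrib]
    apply Finset.sum_congr rfl
    intro e he
    have e1 : ∀ e' ∈ L, a e.1 e.2 * a e'.1 e'.2 * Th e e' =
        (if e = e' then a e.1 e.2 * a e'.1 e'.2 else 0) +
          (if e'.2 = e.2 then m e.1 e'.1 * (a e.1 e.2 * a e'.1 e'.2) else 0) := by
      intro e' _
      simp only [Th]
      split_ifs <;> ring
    rw [Finset.sum_congr rfl e1, Finset.sum_add_distrib, Finset.sum_ite_eq, if_pos he,
      Finset.sum_filter]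
    ring
  have hFsum : ∑ e ∈ L, ∑ e' ∈ L, F e e' = A ^ 2 -
      ∑ e ∈ L, ∑ e' ∈ L, a e.1 e.2 * a e'.1 e'.2 * Th e e' := by
    rw [hAsq, ← Finset.sum_sub_distrib]
    apply Finset.sum_congr rfl
    intro e _
    rw [← Finset.sum_sub_distrib]
    apply Finset.sum_congr rfl
    intro e' _
    simp only [F]
    ring
  have hc1 := hD.c1
  have hc4 := hD.c4
  have hA0 : 0 ≤ A := Finset.sum_nonneg fun e he => (hLpos e he).le
  have hAc : A ≤ c + s / 9 := (hD.asum L).trans (by linarith)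
  have hAc2 : A ^ 2 ≤ c ^ 2 + s := r1 hc1 hc4 hA0 hAc hs0 hs1
  have htot : ∑ e ∈ L, ∑ e' ∈ L, F e e' ≤ 2 * s := by
    rw [hFsum, hsum]
    linarith
  have hFtot0 : 0 ≤ ∑ e ∈ L, ∑ e' ∈ L, F e e' :=
    Finset.sum_nonneg fun e _ => Finset.sum_nonneg fun e' _ => hF0 e e'
  have hAlow : c - s ≤ A := by
    have h3 : c ^ 2 - s ≤ A ^ 2 := by
      rw [hFsum, hsum] at hFtot0
      linarith
    exact r2 hc1 hA0 h3 hs0 hs1
  have hApos : 1 / 2 ≤ A := by linarith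
  have hLne : L.Nonempty := by
    by_contra hne
    rw [Finset.not_nonempty_iff_eq_empty] at hne
    rw [hA, hne, Finset.sum_empty] at hApos
    norm_num at hApos
  obtain ⟨e₀, he₀, he₀'⟩ : ∃ e ∈ L, a e.1 e.2 * ∑ e' ∈ L, a e'.1 e'.2 * (1 - Th e e') ≤
      a e.1 e.2 * (4 * s) := by
    apply Finset.exists_le_of_sum_le hLne
    have h3 : ∑ e ∈ L, a e.1 e.2 * ∑ e' ∈ L, a e'.1 e'.2 * (1 - Th e e') =
        ∑ e ∈ L, ∑ e' ∈ L, F e e' := by
      apply Finset.sum_congr rfl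
      intro e _
      rw [Finset.mul_sum]
      apply Finset.sum_congr rfl
      intro e' _
      simp only [F]
      ring
    rw [h3, ← Finset.sum_mul, ← hA]
    have h4 : 1 / 2 * (4 * s) ≤ A * (4 * s) := mul_le_mul_of_nonneg_right hApos (by linarith)
    linarith
  have he₀2 : ∑ e' ∈ L, a e'.1 e'.2 * (1 - Th e₀ e') ≤ 4 * s :=
    le_of_mul_le_mul_left he₀' (hLpos e₀ he₀)
  set l := e₀.2 with hl
  set Lc := L.filter (fun e => e.2 = l) with hLc
  have hsub : Lc ⊆ L := Finset.filter_subset _ _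
  have hout : ∑ e ∈ L.filter (fun e => ¬ e.2 = l), a e.1 e.2 ≤ 4 * s := by
    refine le_trans ?_ he₀2
    have h3 : ∑ e ∈ L.filter (fun e => ¬ e.2 = l), a e.1 e.2 =
        ∑ e ∈ L.filter (fun e => ¬ e.2 = l), a e.1 e.2 * (1 - Th e₀ e) := by
      apply Finset.sum_congr rfl
      intro e he
      rw [hTh2 e₀ e (Finset.mem_filter.mp he).2]
      ring
    rw [h3]
    apply Finset.sum_le_sum_of_subset_of_nonneg (Finset.filter_subset _ _)
    intro e _ _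
    have := hTh1 e₀ e
    exact mul_nonneg (hD.a0 _ _) (by linarith)
  set I := univ.filter (fun i : Fin n => η < a i l) with hI
  have hImem : ∀ i, i ∈ I ↔ η < a i l := by intro i; simp [hI]
  have hinj : Function.Injective (fun i : Fin n => (i, l)) := by
    intro i j h
    exact (Prod.mk.inj h).1
  have hLcI : Lc = I.image (fun i => (i, l)) := by
    ext e
    rw [hLc, Finset.mem_filter, Finset.mem_image, hLmem]
    constructor
    · rintro ⟨h3, h4⟩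
      refine ⟨e.1, ?_, ?_⟩
      · rw [hImem, ← h4]; exact h3
      · rw [← h4]
    · rintro ⟨i, hi, rfl⟩
      exact ⟨(hImem i).mp hi, rfl⟩
  have hsumI : ∀ g : Fin n × Fin n → ℝ, ∑ e ∈ Lc, g e = ∑ i ∈ I, g (i, l) := by
    intro g
    rw [hLcI, Finset.sum_image (fun i _ j _ h => hinj h)]
  have hcard : (I.card : ℝ) ≤ L.card := by
    have : I.card = Lc.card := by rw [hLcI, Finset.card_image_of_injective _ hinj]
    rw [this]
    exact_mod_cast Finset.card_le_card hsub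
  set P : ℝ := ∑ i ∈ I, a i l with hP
  have hAP : A = P + ∑ e ∈ L.filter (fun e => ¬ e.2 = l), a e.1 e.2 := by
    rw [hA, ← Finset.sum_filter_add_sum_filter_not L (fun e => e.2 = l)]
    congr 1
    exact hsumI (fun e => a e.1 e.2)
  have hPlow : c - 5 * s ≤ P := by linarith
  have hIpos : ∀ i ∈ I, 0 < a i l := fun i hi => hη.trans ((hImem i).mp hi)
  -- the sum over the column
  have hcol : ∑ i ∈ I, ∑ k ∈ I, F (i, l) (k, l) ≤ 2 * s := by
    refine le_trans ?_ htot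
    calc ∑ i ∈ I, ∑ k ∈ I, F (i, l) (k, l) = ∑ i ∈ I, ∑ e' ∈ Lc, F (i, l) e' := by
          apply Finset.sum_congr rfl
          intro i _
          rw [hsumI]
      _ = ∑ e ∈ Lc, ∑ e' ∈ Lc, F e e' := by rw [hsumI (fun e => ∑ e' ∈ Lc, F e e')]
      _ ≤ ∑ e ∈ Lc, ∑ e' ∈ L, F e e' := by
          apply Finset.sum_le_sum
          intro e _
          exact Finset.sum_le_sum_of_subset_of_nonneg hsub (fun e' _ _ => hF0 e e')
      _ ≤ ∑ e ∈ L, ∑ e' ∈ L, F e e' :=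
          Finset.sum_le_sum_of_subset_of_nonneg hsub
            (fun e _ _ => Finset.sum_nonneg fun e' _ => hF0 e e')
  have hFv : ∀ i k, F (i, l) (k, l) = a i l * a k l - (if i = k then a i l * a k l else 0) -
      a i l * a k l * m i k := by
    intro i k
    simp only [F, Th, if_true]
    by_cases h : i = k
    · subst h; simp
    · have : ¬ ((i, l) = (k, l)) := fun h' => h (hinj h')
      rw [if_neg this, if_neg h]
      ring
  have hcol2 : P ^ 2 - ∑ i ∈ I, a i l ^ 2 - ∑ i ∈ I, ∑ k ∈ I, a i l * a k l * m i k ≤ 2 * s := by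
    refine le_trans (le_of_eq ?_) hcol
    rw [sq P, hP, Finset.sum_mul_sum, ← Finset.sum_sub_distrib, ← Finset.sum_sub_distrib]
    apply Finset.sum_congr rfl
    intro i hi
    have e1 : a i l ^ 2 = ∑ k ∈ I, (if i = k then a i l * a k l else 0) := by
      rw [Finset.sum_ite_eq, if_pos hi, sq]
    rw [e1, ← Finset.sum_sub_distrib, ← Finset.sum_sub_distrib]
    apply Finset.sum_congr rfl
    intro k _
    rw [hFv]
  have hIne : I.Nonempty := by
    by_contra hne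
    rw [Finset.not_nonempty_iff_eq_empty] at hne
    rw [hP, hne, Finset.sum_empty] at hPlow
    linarith
  obtain ⟨i₁, hi₁, hmax₁⟩ := Finset.exists_max_image I (fun i => a i l) hIne
  rcases (I.erase i₁).eq_empty_or_nonempty with hemp | hne2
  · -- one large entry only
    have : Nontrivial (Fin n) := Fin.nontrivial_iff_two_le.mpr hn
    obtain ⟨i₂, hi₂⟩ := exists_ne i₁
    have hP1 : P = a i₁ l := by
      rw [hP, ← Finset.add_sum_erase I (fun i => a i l) hi₁, hemp, Finset.sum_empty, add_zero]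
    have h3 : i₂ ∉ I := by
      intro h
      have : i₂ ∈ I.erase i₁ := Finset.mem_erase.mpr ⟨hi₂, h⟩
      rw [hemp] at this
      simp at this
    rw [hImem, not_lt] at h3
    refine ⟨l, i₁, i₂, hi₂.symm, ?_, Or.inl (h3.trans hη1)⟩
    have := hD.a0 i₂ l
    rw [← hP1]
    linarith
  · obtain ⟨i₂, hi₂, hmax₂⟩ := Finset.exists_max_image (I.erase i₁) (fun i => a i l) hne2
    have hi₂I : i₂ ∈ I := Finset.mem_of_mem_erase hi₂
    have hne : i₂ ≠ i₁ := Finset.ne_of_mem_erase hi₂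
    set p₁ := a i₁ l with hp₁
    set p₂ := a i₂ l with hp₂
    have hp₁0 : 0 < p₁ := hIpos i₁ hi₁
    have hp₂0 : 0 < p₂ := hIpos i₂ hi₂I
    have hp₁1 : p₁ ≤ 1 := hD.a1 _ _
    have hp₂1 : p₂ ≤ 1 := hD.a1 _ _
    have hprod : ∀ i ∈ I, ∀ k ∈ I, i ≠ k → a i l * a k l ≤ p₁ * p₂ := by
      intro i hi k hk hik
      by_cases h : k = i₁
      · have h3 : i ∈ I.erase i₁ := Finset.mem_erase.mpr ⟨fun h' => hik (h'.trans h.symm), hi⟩
        have h4 := hmax₂ i h3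
        have h5 := hmax₁ k hk
        calc a i l * a k l ≤ p₂ * p₁ :=
              mul_le_mul h4 h5 (hIpos k hk).le hp₂0.le
          _ = p₁ * p₂ := mul_comm _ _
      · have h3 : k ∈ I.erase i₁ := Finset.mem_erase.mpr ⟨h, hk⟩
        exact mul_le_mul (hmax₁ i hi) (hmax₂ k h3) (hIpos k hk).le hp₁0.le
    have hn0 : (0 : ℝ) < n := by
      have : (2 : ℝ) ≤ n := by exact_mod_cast hn
      linarith
    have hmI : ∑ i ∈ I, ∑ k ∈ I, m i k ≤ 2 + s := by
      refine (hD.mI I).trans ?_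
      have h3 : K * (I.card : ℝ) ^ 4 / n ≤ K * (L.card : ℝ) ^ 4 / n := by
        apply div_le_div_of_nonneg_right _ hn0.le
        apply mul_le_mul_of_nonneg_left _ hK
        exact pow_le_pow_left₀ (Nat.cast_nonneg _) hcard 4
      linarith
    have hmm : ∑ i ∈ I, ∑ k ∈ I, a i l * a k l * m i k ≤ p₁ * p₂ * (2 + s) := by
      calc ∑ i ∈ I, ∑ k ∈ I, a i l * a k l * m i k ≤ ∑ i ∈ I, ∑ k ∈ I, p₁ * p₂ * m i k := by
            apply Finset.sum_le_sum
            intro i hi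
            apply Finset.sum_le_sum
            intro k hk
            by_cases h : i = k
            · subst h
              rw [hD.md, mul_zero, mul_zero]
            · exact mul_le_mul_of_nonneg_right (hprod i hi k hk h) (hD.m0 _ _)
        _ = p₁ * p₂ * ∑ i ∈ I, ∑ k ∈ I, m i k := by
            rw [Finset.mul_sum]
            apply Finset.sum_congr rfl
            intro i _
            rw [Finset.mul_sum]
        _ ≤ _ := mul_le_mul_of_nonneg_left hmI (by positivity)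
    have hkey : P ^ 2 - ∑ i ∈ I, a i l ^ 2 ≤ p₁ * p₂ * (2 + s) + 2 * s := by linarith
    have hp₂P : p₂ ≤ P := Finset.single_le_sum (f := fun i => a i l) (fun i hi => (hIpos i hi).le) hi₂I
    have hsq : ∑ i ∈ I, a i l ^ 2 ≤ p₁ * P := by
      rw [hP, Finset.mul_sum]
      apply Finset.sum_le_sum
      intro i hi
      rw [sq]
      exact mul_le_mul_of_nonneg_right (hmax₁ i hi) (hIpos i hi).le
    have hPhalf : 1 / 2 ≤ P := by linarith
    have hp18 : 1 / 8 ≤ p₁ := r3 hkey hsq hp₂P hp₁0 hp₂0 hs0 hs1 (by linarith)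
    have hPP : 2 * p₁ * (P - p₁) ≤ P ^ 2 - ∑ i ∈ I, a i l ^ 2 := by
      have h3 : P = p₁ + ∑ i ∈ I.erase i₁, a i l := by
        rw [hP, Finset.add_sum_erase I (fun i => a i l) hi₁]
      have h4 : ∑ i ∈ I, a i l ^ 2 = p₁ ^ 2 + ∑ i ∈ I.erase i₁, a i l ^ 2 := by
        rw [Finset.add_sum_erase I (fun i => a i l ^ 2) hi₁]
      have h5 : ∑ i ∈ I.erase i₁, a i l ^ 2 ≤ (∑ i ∈ I.erase i₁, a i l) ^ 2 :=
        Finset.sum_sq_le_sq_sum_of_nonneg (fun i hi => (hIpos i (Finset.mem_of_mem_erase hi)).le)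
      exact r4 h5 h3 h4
    have hp12 : p₁ * p₂ ≤ 1 := mul_le_one₀ hp₁1 hp₂0.le hp₂1
    have hfin : P - p₁ - p₂ ≤ 12 * s := r5 (hPP.trans hkey) hp12 hp18 hs0
    refine ⟨l, i₁, i₂, hne.symm, by linarith, ?_⟩
    by_cases hb : p₂ ≤ 1 / 1000
    · exact Or.inl hb
    · right
      push_neg at hb
      have h3 : F (i₁, l) (i₂, l) ≤ 2 * s := by
        refine le_trans ?_ hcol
        calc F (i₁, l) (i₂, l) ≤ ∑ k ∈ I, F (i₁, l) (k, l) :=
              Finset.single_le_sum (f := fun k => F (i₁, l) (k, l)) (fun k _ => hF0 _ _) hi₂I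
          _ ≤ _ := Finset.single_le_sum (f := fun i => ∑ k ∈ I, F (i, l) (k, l))
              (fun i _ => Finset.sum_nonneg fun k _ => hF0 _ _) hi₁
      rw [hFv, if_neg hne.symm] at h3
      have h4 : p₁ * p₂ * (1 - m i₁ i₂) ≤ 2 * s := by linarith
      have h5 : 0 ≤ 1 - m i₁ i₂ := by linarith [hD.m1 i₁ i₂]
      have h6 : 1 / 8 * (1 / 1000) ≤ p₁ * p₂ := mul_le_mul hp18 hb.le (by norm_num) hp₁0.le
      have h7 : 1 / 8 * (1 / 1000) * (1 - m i₁ i₂) ≤ p₁ * p₂ * (1 - m i₁ i₂) := mul_le_mul_of_nonneg_right h6 h5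
      linarith

theorem t_ST2 : V5helper19.ER.S_ST2 := by
  intro ε hε
  refine ⟨min (1 / 100) (ε / 16000), by positivity, ?_⟩
  intro K η hK hη hη1
  set s : ℝ := min (1 / 100) (ε / 16000) with hs
  have hs0 : 0 < s := by positivity
  have hs1 : s ≤ 1 / 100 := min_le_left _ _
  have hs2 : s ≤ ε / 16000 := min_le_right _ _
  set B : ℝ := 20 / η ^ 2 with hB
  have hB0 : 0 < B := by positivity
  obtain ⟨N1, hN1⟩ := exists_nat_gt (9 * B ^ 2 / s + K * B ^ 4 / s + 2)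
  refine ⟨N1, ?_⟩
  intro n hn c a m hD H hL
  have hnr : 9 * B ^ 2 / s + K * B ^ 4 / s + 2 < n := lt_of_lt_of_le hN1 (by exact_mod_cast hn)
  have e1 : 0 ≤ 9 * B ^ 2 / s := by positivity
  have e2 : 0 ≤ K * B ^ 4 / s := by positivity
  have hn2 : 2 ≤ n := by
    have : (2 : ℝ) < n := by linarith
    exact_mod_cast this.le
  have hc0 : (0 : ℝ) ≤ (LL η a).card := Nat.cast_nonneg _
  obtain ⟨l, i₁, i₂, hne, h3, h4⟩ := core hD hs0 hs1 hη hη1 hn2 (by
      rw [div_le_iff₀ (by linarith)]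
      have h5 : ((LL η a).card : ℝ) ^ 2 ≤ B ^ 2 := pow_le_pow_left₀ hc0 hL 2
      have h6 : 9 * B ^ 2 / s ≤ (n : ℝ) - 1 := by linarith
      rw [div_le_iff₀ hs0] at h6
      linarith) (by
      rw [div_le_iff₀ (by linarith)]
      have h5 : K * ((LL η a).card : ℝ) ^ 4 ≤ K * B ^ 4 :=
        mul_le_mul_of_nonneg_left (pow_le_pow_left₀ hc0 hL 4) hK
      have h6 : K * B ^ 4 / s ≤ (n : ℝ) := by linarith
      rw [div_le_iff₀ hs0] at h6
      linarith) hK H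
  refine ⟨l, i₁, i₂, hne, by linarith, ?_⟩
  rcases h4 with h4 | h4
  · exact Or.inl h4
  · right
    linarith

end V5helper37.ER
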